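import Mathlib
import Pool.Agent.Helper390.LCU

set_option autoImplicit false

namespace Pool.Agent.Results.MP_b05523_al.NoUniversalGroup

/-- For every second countable locally compact Hausdorff group `S` there is a countable, and even finitely
generated, group `G` which admits no injective group homomorphism into `S`. -/
theorem result {S : Type*} [Group S] [TopologicalSpace S] [IsTopologicalGroup S] [T2Space S]
    [LocallyCompactSpace S] [SecondCountableTopology S] :
    ∃ (G : Type) (_ : Group G), Countable G ∧ Group.FG G ∧ ∀ φ : G →* S, ¬ Function.Injective φ := by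
  obtain ⟨G, hG, hfg, hno⟩ := Pool.Agent.LCU.main_thm (S := S)
  refine ⟨G, hG, ?_, hfg, hno⟩
  obtain ⟨s, hs⟩ := (Group.fg_def.1 hfg)
  have hsur : Function.Surjective (FreeGroup.lift (fun x : (s : Set G) => (x : G))) := by
    rw [← MonoidHom.range_eq_top, FreeGroup.range_lift_eq_closure, Subtype.range_coe, hs]
  have : Countable (FreeGroup (s : Set G)) := by
    unfold FreeGroup
    infer_instance
  exact hsur.countable

end Pool.Agent.Results.MP_b05523_al.NoUniversalGroup
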